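import Pool.Agent.Q19.SphF

set_option autoImplicit false

open Cardinal Pool.Agent.Q19.Sph

namespace Pool.Agent.Results.MP_0be93d_co.RotationGroup

/-- There is an uncountable set `W` of points of the sphere, with trivial pointwise stabilizer in
`SO(3)`, for which the precolouring extension property fails, if and only if
`2 ^ ℵ₁ = 2 ^ ℵ₀`. -/
theorem result :
    (∃ W : Set S2, ¬ W.Countable ∧ TrivialStabilizer SO3 W ∧ ¬ PrecolouringExtension SO3 W) ↔
      (2 : Cardinal.{0}) ^ ℵ₁ = 2 ^ ℵ₀ :=
  mainSO

end Pool.Agent.Results.MP_0be93d_co.RotationGroup
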